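import Pool.Agent.W95.EQ.Stm

/-!
# Project EQM (helper95): the local degree at infinity
-/

set_option autoImplicit false

open Polynomial Topology Filter MeasureTheory
open scoped ENNReal

namespace Pool.Agent.W303.EQ.Ldci

open Pool.Agent.W95.BK Pool.Agent.W95.EQ

universe u

section
variable {K : Type u} [NontriviallyNormedField K] [IsUltrametricDist K] [IsAlgClosed K]

theorem gn_C_mul {r : ℝ} (hr : 0 < r) (k : K) (h : K[X]) :
    gn 0 r (C k * h) = ‖k‖ * gn 0 r h := by
  have h1 := (gauss (0 : K) r hr).map_mul' (C k) h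
  have h2 := (gauss (0 : K) r hr).map_C' k
  rw [h2] at h1
  exact h1

/-- a small perturbation does not change the number of roots in the closed disc -/
theorem nIn_add (hN : S_NPOL.{u}) {r : ℝ} (hr : 0 < r) {h e : K[X]} (hh : h ≠ 0)
    (hhe : h + e ≠ 0) (hlt : gn 0 r e < gn 0 r h) :
    nIn (h + e) {w | ‖w - 0‖ ≤ r} = nIn h {w | ‖w - 0‖ ≤ r} := by
  by_cases he : e = 0
  · rw [he, add_zero]
  obtain ⟨a1, a2, -, -, a5, a6⟩ := hN K h 0 r hh hr
  obtain ⟨b1, b2, -, -, b5, b6⟩ := hN K (h + e) 0 r hhe hr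
  obtain ⟨c1, c2, -, -, -, -⟩ := hN K e 0 r he hr
  set N := nIn h {w | ‖w - 0‖ ≤ r} with hNdef
  set N' := nIn (h + e) {w | ‖w - 0‖ ≤ r} with hNdef'
  have hco : ∀ i, (taylor 0 (h + e)).coeff i = (taylor 0 h).coeff i + (taylor 0 e).coeff i := by
    intro i
    rw [map_add, coeff_add]
  have hB : ∀ i, ‖(taylor 0 (h + e)).coeff i‖ * r ^ i ≤
      max (‖(taylor 0 h).coeff i‖ * r ^ i) (‖(taylor 0 e).coeff i‖ * r ^ i) := by
    intro i
    rw [hco, ← max_mul_of_nonneg _ _ (pow_nonneg hr.le i)]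
    exact mul_le_mul_of_nonneg_right (IsUltrametricDist.norm_add_le_max _ _) (pow_nonneg hr.le i)
  have hBN : ‖(taylor 0 (h + e)).coeff N‖ * r ^ N = gn 0 r h := by
    rw [← a5]
    have h1 : ‖(taylor 0 e).coeff N‖ * r ^ N < ‖(taylor 0 h).coeff N‖ * r ^ N := by
      rw [a5]
      exact lt_of_le_of_lt (c2 N) hlt
    have h2 : ‖(taylor 0 e).coeff N‖ < ‖(taylor 0 h).coeff N‖ :=
      lt_of_mul_lt_mul_right h1 (pow_nonneg hr.le N)
    rw [hco]
    congr 1
    rw [IsUltrametricDist.norm_add_eq_max_of_norm_ne_norm h2.ne']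
    exact max_eq_left h2.le
  rcases lt_trichotomy N' N with h1 | h1 | h1
  · exfalso
    have h2 := b6 N h1
    have h3 := hB N'
    rw [b5] at h3
    have h4 : gn 0 r (h + e) ≤ gn 0 r h := h3.trans (max_le (a2 N') ((c2 N').trans hlt.le))
    rw [hBN] at h2
    linarith
  · exact h1
  · exfalso
    have h2 := a6 N' h1
    have h3 := hB N'
    rw [b5] at h3
    have h4 : gn 0 r (h + e) < gn 0 r h :=
      lt_of_le_of_lt h3 (max_lt h2 (lt_of_le_of_lt (c2 N') hlt))
    have h5 := b2 N
    rw [hBN] at h5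
    linarith

theorem card_roots_nat (h : K[X]) : h.roots.card = h.natDegree :=
  ((IsAlgClosed.splits h).natDegree_eq_card_roots).symm

theorem exists_bound (h : K[X]) : ∃ M : ℝ, ∀ w ∈ h.roots, ‖w‖ ≤ M := by
  classical
  obtain ⟨M, hM⟩ := ((h.roots.toFinset.finite_toSet).image (fun w : K => ‖w‖)).bddAbove
  refine ⟨M, fun w hw => hM ⟨w, ?_, rfl⟩⟩
  exact Multiset.mem_toFinset.mpr hw

theorem nIn_all {h : K[X]} {r : ℝ} (hr : ∀ w ∈ h.roots, ‖w‖ ≤ r) :
    nIn h {w | ‖w - 0‖ ≤ r} = h.natDegree := by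
  unfold nIn
  rw [Multiset.filter_eq_self.mpr, card_roots_nat]
  intro w hw
  show ‖w - 0‖ ≤ r
  rw [sub_zero]
  exact hr w hw

theorem fib_ne (f : RMap K) (b : K) : f.P - C b * f.Q ≠ 0 := by
  intro h
  have hP : f.P = C b * f.Q := sub_eq_zero.mp h
  have hu : IsUnit f.Q := by
    have := f.cop
    rw [hP] at this
    exact isCoprime_self.mp (IsCoprime.of_mul_left_right this)
  have hQ : f.Q.natDegree = 0 := natDegree_eq_zero_of_isUnit hu
  have hP0 : f.P.natDegree = 0 := by
    rw [hP]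
    have := natDegree_C_mul_le b f.Q
    omega
  have := f.deg_eq
  rw [hQ, hP0] at this
  have := f.pos
  simp at *
  omega

theorem Q_ne (f : RMap K) : f.Q ≠ 0 := by
  intro h
  have hu : IsUnit f.P := by
    have := f.cop
    rw [h] at this
    exact isCoprime_zero_right.mp this
  have hP0 : f.P.natDegree = 0 := natDegree_eq_zero_of_isUnit hu
  have h1 := f.deg_eq
  have h2 := f.pos
  rw [h, hP0] at h1
  simp at h1
  omega

/-- the basic neighbourhood of infinity -/
def UI (r : ℝ) : Set (P1B K) := {x : P1B K | ∀ y : BA K, x = (y : P1B K) → r < lam y 0}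

theorem infty_UI (r : ℝ) : (OnePoint.infty : P1B K) ∈ UI (K := K) r := by
  intro y hy
  exact absurd hy (OnePoint.infty_ne_coe y)

theorem cnt_UI (hG : S_GLAM.{u}) (f : RMap K) (r : ℝ) (b : K) :
    cnt f (UI r) b = f.d - nIn (f.P - C b * f.Q) {w | ‖w - 0‖ ≤ r} := by
  classical
  have hdeg : (f.P - C b * f.Q).natDegree ≤ f.d := by
    have h1 : f.P.natDegree ≤ f.d := f.deg_eq ▸ le_max_left _ _
    have h2 : (C b * f.Q).natDegree ≤ f.d :=
      (natDegree_C_mul_le _ _).trans (f.deg_eq ▸ le_max_right _ _)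
    exact (natDegree_sub_le _ _).trans (max_le h1 h2)
  unfold cnt fib nIn
  set h := f.P - C b * f.Q with hh
  rw [Multiset.filter_add, Multiset.card_add, Multiset.filter_map, Multiset.card_map]
  have e1 : (h.roots.filter ((fun w => w ∈ UI (K := K) r) ∘
      fun w => ((cl w : BA K) : P1B K))).card =
      (h.roots.filter (fun w => ¬ w ∈ {w : K | ‖w - 0‖ ≤ r})).card := by
    congr 1
    apply Multiset.filter_congr
    intro w _
    show (((cl w : BA K) : P1B K) ∈ UI (K := K) r) ↔ ¬ (‖w - 0‖ ≤ r)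
    rw [not_le]
    constructor
    · intro h1
      have := h1 (cl w) rfl
      rwa [(hG K w 0).1] at this
    · intro h1 y hy
      rw [OnePoint.coe_eq_coe] at hy
      rw [← hy, (hG K w 0).1]
      exact h1
  have e2 : ((Multiset.replicate (f.d - h.natDegree) (OnePoint.infty : P1B K)).filter
      (fun w => w ∈ UI (K := K) r)).card = f.d - h.natDegree := by
    rw [Multiset.filter_eq_self.mpr, Multiset.card_replicate]
    intro w hw
    rw [Multiset.eq_of_mem_replicate hw]
    exact infty_UI r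
  have e3 : (h.roots.filter (fun w => w ∈ {w : K | ‖w - 0‖ ≤ r})).card +
      (h.roots.filter (fun w => ¬ w ∈ {w : K | ‖w - 0‖ ≤ r})).card = h.natDegree := by
    rw [← card_roots_nat, ← Multiset.card_add, Multiset.filter_add_not]
  rw [e2]
  convert_to _ + (f.d - h.natDegree) =
    f.d - (h.roots.filter (fun w => w ∈ {w : K | ‖w - 0‖ ≤ r})).card using 2
  · rw [e1]
    omega

end

theorem main : S_NPOL.{u} → S_NB.{u} → S_GLAM.{u} → S_LDCI.{u} := by
  classical
  intro hN hNB hG K _ _ _ f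
  obtain ⟨-, nb2, nb3, nb4⟩ := hNB K
  refine ⟨?_, ?_⟩
  · intro hQd U₀ hU₀
    set c := f.P.coeff f.d / f.Q.coeff f.d with hc
    set h := f.P - C c * f.Q with hh
    have hh0 : h ≠ 0 := fib_ne f c
    obtain ⟨hi, r, hr, hrU⟩ := nb2 U₀ hU₀
    obtain ⟨M, hM⟩ := exists_bound h
    set s := max r M with hs
    have hs0 : 0 < s := lt_of_lt_of_le hr (le_max_left _ _)
    have hact : f.act (OnePoint.infty : P1B K) = ((cl c : BA K) : P1B K) := by
      show (if f.Q.coeff f.d = 0 then (OnePoint.infty : P1B K)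
        else ((cl (f.P.coeff f.d / f.Q.coeff f.d) : BA K) : P1B K)) = _
      rw [if_neg hQd]
    refine ⟨UI s, (nb4 0 s).mem_nhds (infty_UI s), ?_, ?_⟩
    · intro x hx
      induction x using OnePoint.rec with
      | infty => exact hi
      | coe y => exact hrU y (lt_of_le_of_lt (le_max_left _ _) (hx y rfl))
    · have hgh : 0 < gn 0 s h := (hN K h 0 s hh0 hs0).1
      have hgQ : 0 < gn 0 s f.Q := (hN K f.Q 0 s (Q_ne f) hs0).1
      have hε : 0 < gn 0 s h / gn 0 s f.Q := div_pos hgh hgQ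
      have hev : ∀ᶠ b in toward (f.act (OnePoint.infty : P1B K)),
          ‖b - c‖ < gn 0 s h / gn 0 s f.Q := by
        rw [hact]
        unfold toward
        have hmem : ball c (gn 0 s h / gn 0 s f.Q) ∈ 𝓝 (((cl c : BA K)) : P1B K) := by
          apply (nb3 c _).mem_nhds
          refine ⟨cl c, rfl, ?_⟩
          rw [(hG K c c).1, sub_self, norm_zero]
          exact hε
        filter_upwards [preimage_mem_comap hmem] with b hb
        obtain ⟨y, hy, hy2⟩ := hb
        rw [OnePoint.coe_eq_coe] at hy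
        rw [← hy, (hG K b c).1] at hy2
        exact hy2
      filter_upwards [hev] with b hb
      rw [cnt_UI hG]
      have e : f.P - C b * f.Q = h + C (c - b) * f.Q := by
        rw [hh, C_sub]; ring
      rw [e, nIn_add hN hs0 hh0 (by rw [← e]; exact fib_ne f b), nIn_all]
      · intro w hw
        exact (hM w hw).trans (le_max_right _ _)
      · rw [gn_C_mul hs0, norm_sub_rev]
        exact (lt_div_iff₀ hgQ).mp hb
  · intro hQd U₀ hU₀
    obtain ⟨hi, r, hr, hrU⟩ := nb2 U₀ hU₀
    obtain ⟨M, hM⟩ := exists_bound f.Q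
    set s := max r M with hs
    have hs0 : 0 < s := lt_of_lt_of_le hr (le_max_left _ _)
    have hact : f.act (OnePoint.infty : P1B K) = (OnePoint.infty : P1B K) := by
      show (if f.Q.coeff f.d = 0 then (OnePoint.infty : P1B K)
        else ((cl (f.P.coeff f.d / f.Q.coeff f.d) : BA K) : P1B K)) = _
      rw [if_pos hQd]
    refine ⟨UI s, (nb4 0 s).mem_nhds (infty_UI s), ?_, ?_⟩
    · intro x hx
      induction x using OnePoint.rec with
      | infty => exact hi
      | coe y => exact hrU y (lt_of_le_of_lt (le_max_left _ _) (hx y rfl))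
    · have hgQ : 0 < gn 0 s f.Q := (hN K f.Q 0 s (Q_ne f) hs0).1
      have hev : ∀ᶠ b in toward (f.act (OnePoint.infty : P1B K)),
          max 0 (gn 0 s f.P / gn 0 s f.Q) < ‖b‖ := by
        rw [hact]
        unfold toward
        have hmem : UI (max 0 (gn 0 s f.P / gn 0 s f.Q)) ∈ 𝓝 (OnePoint.infty : P1B K) :=
          (nb4 0 _).mem_nhds (infty_UI _)
        filter_upwards [preimage_mem_comap hmem] with b hb
        have := hb (cl b) rfl
        rwa [(hG K b 0).1, sub_zero] at this
      filter_upwards [hev] with b hb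
      rw [cnt_UI hG]
      have hb0 : b ≠ 0 := by
        rintro rfl
        rw [norm_zero] at hb
        exact absurd hb (not_lt.mpr (le_max_left _ _))
      have e : f.P - C b * f.Q = C (-b) * f.Q + f.P := by
        rw [C_neg]; ring
      have hne : C (-b) * f.Q ≠ 0 :=
        mul_ne_zero (C_ne_zero.mpr (neg_ne_zero.mpr hb0)) (Q_ne f)
      rw [e, nIn_add hN hs0 hne (by rw [← e]; exact fib_ne f b), nIn_all]
      · rw [natDegree_C_mul (neg_ne_zero.mpr hb0)]
      · intro w hw
        rw [roots_C_mul _ (neg_ne_zero.mpr hb0)] at hw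
        exact (hM w hw).trans (le_max_right _ _)
      · rw [gn_C_mul hs0, norm_neg]
        exact (div_lt_iff₀ hgQ).mp (lt_of_le_of_lt (le_max_right _ _) hb)

end Pool.Agent.W303.EQ.Ldci
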